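import Mathlib

set_option autoImplicit false

namespace Pool.Agent.Results.MP_2f9b3f_lc.Counter
open Finset

/-- a marginal scenario: closed under subsets, containing `∅` and every singleton -/
def Scenario {n : ℕ} (M : Finset (Finset (Fin n))) : Prop :=
  ∅ ∈ M ∧ (∀ i, {i} ∈ M) ∧ ∀ S ∈ M, ∀ T ⊆ S, T ∈ M

/-- the polytope `P(M, O)` of marginal models -/
def Models {n : ℕ} (M : Finset (Finset (Fin n))) (O : Fin n → Type) [∀ i, Fintype (O i)]
    [∀ i, DecidableEq (O i)] : Set ((S : M) → ((i : S.1) → O i) → ℝ) :=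
  {p | (∀ S x, 0 ≤ p S x) ∧ (∀ S, ∑ x, p S x = 1) ∧ ∀ (T S : M) (h : T.1 ⊆ S.1) (y : (i : T.1) → O i),
    p T y = ∑ x with (fun i : T.1 => x ⟨i, h i.2⟩) = y, p S x}

/-- Shannon entropy (natural logarithm) -/
noncomputable def H {X : Type} [Fintype X] (q : X → ℝ) : ℝ := ∑ x, Real.negMulLog (q x)

def Polymatroid {n : ℕ} (f : Finset (Fin n) → ℝ) : Prop :=
  f ∅ = 0 ∧ (∀ S T, S ⊆ T → f S ≤ f T) ∧ ∀ S T, f (S ∪ T) + f (S ∩ T) ≤ f S + f T

def M : Finset (Finset (Fin 4)) := {∅, {0}, {1}, {2}, {3}, {0, 1}, {0, 2}, {1, 2}, {0, 3}, {1, 3}}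

def wt (a : Fin 3) : ℕ := if a = 0 then 2 else 1

def Q (S : Finset (Fin 4)) (z : Fin 4 → Fin 3) : ℕ :=
  if S = ∅ then 4 else if S = {0, 1} then (if (z 0 = 0 ↔ z 1 = 0) then 0 else 1)
  else if S = {0, 2} then (if z 0 = z 2 then wt (z 0) else 0)
  else if S = {1, 2} then (if z 1 = z 2 then wt (z 1) else 0)
  else if S = {0, 3} then (if z 0 = z 3 then wt (z 0) else 0)
  else if S = {1, 3} then (if z 1 + z 3 = 0 then wt (z 1) else 0)
  else wt (z 0 + z 1 + z 2 + z 3)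

def q (S : M) (x : S.1 → Fin 3) : ℕ := Q S fun i => if h : i ∈ S.1 then x ⟨i, h⟩ else 0

theorem q1 : ∀ S, ∑ x, q S x = 4 := by decide +kernel

theorem q2 : ∀ (T S : M) (h : T.1 ⊆ S.1) (y : T.1 → Fin 3),
    q T y = ∑ x with (fun i : T.1 => x ⟨i, h i.2⟩) = y, q S x := by decide +kernel

theorem q3 : ∀ S : M, S.1 ≠ ∅ → ∀ x, q S x = 0 ∨ q S x = 1 ∨ q S x = 2 := by decide +kernel

theorem q4 : ∀ S : M, S.1 ≠ ∅ →
    (univ.filter fun x => q S x ≠ 0).card = if S.1 = {0, 1} then 4 else 3 := by decide +kernel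

theorem ent (S : M) (h : S.1 ≠ ∅) :
    H (fun x => (q S x : ℝ) / 4) = (univ.filter fun x => q S x ≠ 0).card * (Real.log 2 / 2) := by
  have l4 : Real.log 4 = 2 * Real.log 2 := by
    rw [show (4 : ℝ) = 2 ^ 2 by norm_num, Real.log_pow]; norm_num
  rw [H, card_filter, Nat.cast_sum, sum_mul]
  refine sum_congr rfl fun x _ => ?_
  rcases q3 S h x with e | e | e <;> rw [e] <;> norm_num [Real.negMulLog, Real.log_div, l4] <;> ring

theorem pairs (r : (S : M) → (S.1 → Fin 3) → ℝ) (hr : r ∈ Models M fun _ => Fin 3) (i j : Fin 4)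
    (n : i ≠ j) (hi : {i} ∈ M) (hj : {j} ∈ M) (h : {i, j} ∈ M) (a : Fin 3) :
    r ⟨_, hi⟩ (fun _ => a) = ∑ b, r ⟨_, h⟩ (fun k => if k.1 = i then a else b) ∧
    r ⟨_, hj⟩ (fun _ => a) = ∑ b, r ⟨_, h⟩ (fun k => if k.1 = i then b else a) := by
  rw [hr.2.2 ⟨_, hi⟩ ⟨_, h⟩ (by simp), hr.2.2 ⟨_, hj⟩ ⟨_, h⟩ (by simp)]
  constructor
  · refine sum_nbij' (fun x => x ⟨j, by simp⟩) (fun b k => if k.1 = i then a else b) (by simp)
      (fun b _ => by simp [funext_iff]) (fun x hx => ?_) (fun b _ => by simp [n.symm]) fun x hx => ?_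
    all_goals
      have := congrFun (mem_filter.1 hx).2 ⟨i, by simp⟩
      try congr 1
      ext ⟨k, hk⟩
      rcases mem_insert.1 hk with rfl | hk'
      · simp [← this]
      · obtain rfl := mem_singleton.1 hk'; simp [n.symm]
  · refine sum_nbij' (fun x => x ⟨i, by simp⟩) (fun b k => if k.1 = i then b else a) (by simp)
      (fun b _ => by simp [funext_iff, n.symm]) (fun x hx => ?_) (fun b _ => by simp) fun x hx => ?_
    all_goals
      have := congrFun (mem_filter.1 hx).2 ⟨j, by simp⟩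
      try congr 1
      ext ⟨k, hk⟩
      rcases mem_insert.1 hk with rfl | hk'
      · simp
      · obtain rfl := mem_singleton.1 hk'; simp [n.symm, ← this]

theorem uniq (r : (S : M) → (S.1 → Fin 3) → ℝ) (hr : r ∈ Models M fun _ => Fin 3)
    (z : ∀ S x, q S x = 0 → r S x = 0) : r = fun S x => (q S x : ℝ) / 4 := by
  have p01 := pairs r hr 0 1 (by decide) (by decide) (by decide) (by decide)
  have p02 := pairs r hr 0 2 (by decide) (by decide) (by decide) (by decide)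
  have p12 := pairs r hr 1 2 (by decide) (by decide) (by decide) (by decide)
  have p03 := pairs r hr 0 3 (by decide) (by decide) (by decide) (by decide)
  have p13 := pairs r hr 1 3 (by decide) (by decide) (by decide) (by decide)
  have s0 : ∑ a, r ⟨{0}, by decide⟩ (fun _ => a) = 1 := by
    rw [← hr.2.1 ⟨{0}, by decide⟩]
    exact Fintype.sum_equiv (Equiv.funUnique ({0} : Finset (Fin 4)) (Fin 3)).symm _ _ fun _ => rfl
  simp only [Fin.forall_fin_succ, Fin.sum_univ_three, Fin.succ_zero_eq_one, Fin.succ_one_eq_two,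
    IsEmpty.forall_iff, and_true] at p01 p02 p12 p03 p13 s0
  have P : ∀ (i j : Fin 4) (h : {i, j} ∈ M), i ≠ j → (∀ a b, r ⟨_, h⟩ (fun k => if k.1 = i then a else b) =
      (q ⟨_, h⟩ (fun k => if k.1 = i then a else b) : ℝ) / 4) → ∀ x, r ⟨_, h⟩ x = (q ⟨_, h⟩ x : ℝ) / 4 :=
    fun i j h n H x => by
      have : x = fun k => if k.1 = i then x ⟨i, by simp⟩ else x ⟨j, by simp⟩ := by
        ext ⟨k, hk⟩
        rcases mem_insert.1 hk with rfl | hk'
        · simp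
        · obtain rfl := mem_singleton.1 hk'; simp [n.symm]
      rw [this]; exact H _ _
  have P1 : ∀ (i : Fin 4) (h : {i} ∈ M), (∀ a, r ⟨_, h⟩ (fun _ => a) =
      (q ⟨_, h⟩ (fun _ => a) : ℝ) / 4) → ∀ x, r ⟨_, h⟩ x = (q ⟨_, h⟩ x : ℝ) / 4 := fun i h H x => by
    have : x = fun _ => x ⟨i, by simp⟩ := by
      ext ⟨k, hk⟩; obtain rfl := mem_singleton.1 hk; rfl
    rw [this]; exact H _
  have z01 := fun a b => z ⟨{0, 1}, by decide⟩ fun k => if k.1 = 0 then a else b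
  have z02 := fun a b => z ⟨{0, 2}, by decide⟩ fun k => if k.1 = 0 then a else b
  have z12 := fun a b => z ⟨{1, 2}, by decide⟩ fun k => if k.1 = 1 then a else b
  have z03 := fun a b => z ⟨{0, 3}, by decide⟩ fun k => if k.1 = 0 then a else b
  have z13 := fun a b => z ⟨{1, 3}, by decide⟩ fun k => if k.1 = 1 then a else b
  rw [z01 0 0 rfl, z01 1 1 rfl, z01 1 2 rfl, z01 2 1 rfl, z01 2 2 rfl] at p01
  rw [z02 0 1 rfl, z02 0 2 rfl, z02 1 0 rfl, z02 1 2 rfl, z02 2 0 rfl, z02 2 1 rfl] at p02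
  rw [z12 0 1 rfl, z12 0 2 rfl, z12 1 0 rfl, z12 1 2 rfl, z12 2 0 rfl, z12 2 1 rfl] at p12
  rw [z03 0 1 rfl, z03 0 2 rfl, z03 1 0 rfl, z03 1 2 rfl, z03 2 0 rfl, z03 2 1 rfl] at p03
  rw [z13 0 1 rfl, z13 0 2 rfl, z13 1 0 rfl, z13 1 1 rfl, z13 2 0 rfl, z13 2 2 rfl] at p13
  obtain ⟨⟨_, _⟩, ⟨_, _⟩, _, _⟩ := p01
  obtain ⟨⟨_, _⟩, ⟨_, _⟩, _, _⟩ := p02
  obtain ⟨⟨_, _⟩, ⟨_, _⟩, _, _⟩ := p12
  obtain ⟨⟨_, _⟩, ⟨_, _⟩, _, _⟩ := p03
  obtain ⟨⟨_, _⟩, ⟨_, _⟩, _, _⟩ := p13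
  have K : ∀ S x, (q S x = 0 ∨ (q S x = 1 ∧ r S x = 1 / 4) ∨ (q S x = 2 ∧ r S x = 1 / 2)) →
      r S x = (q S x : ℝ) / 4 := by
    rintro S x (e | ⟨e, e'⟩ | ⟨e, e'⟩)
    · rw [z S x e, e]; simp
    · rw [e, e']; simp
    · rw [e, e']; norm_num
  funext ⟨S, hS⟩
  have hS' := hS
  simp only [M, mem_insert, mem_singleton] at hS'
  funext x
  rcases hS' with rfl | rfl | rfl | rfl | rfl | rfl | rfl | rfl | rfl | rfl
  · have := hr.2.1 ⟨∅, hS⟩
    rw [Fintype.sum_subsingleton _ x] at this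
    rw [this]; simp [q, Q]
  iterate 4
    refine P1 _ hS ?_ x
    simp only [Fin.forall_fin_succ, Fin.succ_zero_eq_one, Fin.succ_one_eq_two, IsEmpty.forall_iff, and_true]
    refine ⟨K _ _ ?_, K _ _ ?_, K _ _ ?_⟩ <;>
    first | exact Or.inr (Or.inl ⟨rfl, by linarith⟩) | exact Or.inr (Or.inr ⟨rfl, by linarith⟩)
  all_goals
    refine P _ _ hS (by decide) ?_ x
    simp only [Fin.forall_fin_succ, Fin.succ_zero_eq_one, Fin.succ_one_eq_two, IsEmpty.forall_iff, and_true]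
    refine ⟨⟨K _ _ ?_, K _ _ ?_, K _ _ ?_⟩, ⟨K _ _ ?_, K _ _ ?_, K _ _ ?_⟩, K _ _ ?_, K _ _ ?_, K _ _ ?_⟩ <;>
    first | exact Or.inl rfl | exact Or.inr (Or.inl ⟨rfl, by linarith⟩) |
      exact Or.inr (Or.inr ⟨rfl, by linarith⟩)

theorem result : ∃ (n : ℕ) (M : Finset (Finset (Fin n))) (O : Fin n → Type) (_ : ∀ i, Fintype (O i))
    (_ : ∀ i, DecidableEq (O i)), Scenario M ∧ (∀ i, Nonempty (O i)) ∧
    ∃ p ∈ (Models M O).extremePoints ℝ,
      ¬ ∃ f : Finset (Fin n) → ℝ, Polymatroid f ∧ ∀ S : M, f S = H (p S) := by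
  refine ⟨4, M, fun _ => Fin 3, inferInstance, inferInstance, by unfold Scenario; decide,
    fun _ => inferInstance, fun S x => (q S x : ℝ) / 4, ?_, fun ⟨f, ⟨_, f1, f2⟩, f3⟩ => ?_⟩
  · refine mem_extremePoints_iff_left.2 ⟨⟨fun S x => by positivity, fun S => ?_, fun T S h y => ?_⟩,
      fun r hr s hs ⟨a, b, ha, hb, _, e⟩ => uniq r hr fun S x z => ?_⟩
    · rw [← sum_div, ← Nat.cast_sum, q1]; norm_num
    · rw [← sum_div, ← Nat.cast_sum]; exact congrArg (fun m : ℕ => (m : ℝ) / 4) (q2 T S h y)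
    · have := congrFun (congrFun e S) x
      simp only [Pi.add_apply, Pi.smul_apply, smul_eq_mul, z, Nat.cast_zero, zero_div] at this
      have := hr.1 S x
      have := mul_nonneg hb.le (hs.1 S x)
      nlinarith
  · have k : ∀ S : M, S.1 ≠ ∅ → f S = (if S.1 = {0, 1} then 4 else 3 : ℕ) *
        (Real.log 2 / 2) := fun S h => by rw [f3, ent S h, q4 S h]
    have a : f {0, 1} = (4 : ℕ) * _ := k ⟨{0, 1}, by decide⟩ (by decide)
    have b : f {0, 2} = (3 : ℕ) * _ := k ⟨{0, 2}, by decide⟩ (by decide)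
    have c : f {1, 2} = (3 : ℕ) * _ := k ⟨{1, 2}, by decide⟩ (by decide)
    have d : f {2} = (3 : ℕ) * _ := k ⟨{2}, by decide⟩ (by decide)
    have g := f2 {0, 2} {1, 2}
    have := f1 {0, 1} ({0, 2} ∪ {1, 2}) (by decide)
    rw [show ({0, 2} ∩ {1, 2} : Finset (Fin 4)) = {2} by decide] at g
    have := Real.log_pos (show (1 : ℝ) < 2 by norm_num)
    push_cast at a b c d
    linarith

end Pool.Agent.Results.MP_2f9b3f_lc.Counter
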